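import Pool.Agent.TH177.EC.Delta
import Pool.Agent.TH177.EC.Baire

/-!
Let `Y = P¹ × P³` and `A = O(1, 1)`. For every `d ≥ 3` the push-forward of one-cycles of a general
member `X` of `|dA|` does not map the effective cone `Eff₁(X)` onto `Eff₁(Y)`. For a member `X`
whose coefficient forms `F₀, …, F_d` on `P³` have no common zero, multiplication by the `F_i` and by
suitable bihomogeneous forms compares the dimensions of the spaces of restrictions of forms of
bidegree `(m + 1, n)` and `(m, n + d)` to a curve of `X`, and this bounds the degrees of the curve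
with respect to the very ample line bundles `O(2, 1)` and `O(1, 2)`. The curves `P¹ × {y}` violate
this bound.
-/

set_option autoImplicit false

namespace Pool.Agent.Results.MP_f4858a_ag.GeneralP1P3

open Pool.Agent.TH177.EC

/-- For `Y = P¹ × P³`, `A = O(1, 1)` and every `d ≥ 3` there is a nonzero polynomial `Δ` in the
coefficients of the forms of bidegree `(d, d)`, such that the push-forward `i_*` does not map
`Eff₁(X)` onto `Eff₁(Y)` whenever `X` is the member of `|dA|` given by a form on which `Δ` does not
vanish. In particular, for no countable union of proper closed subsets of `|dA|` the inclusions of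
all members outside of the union induce isomorphisms of effective cones in dimension one. -/
theorem result (d : ℕ) (hd : 3 ≤ d) :
    (∃ Δ : MvPolynomial (Fin (d + 1) × Mon d) ℂ, Δ ≠ 0 ∧
      ∀ c : Fin (d + 1) × Mon d → ℂ, MvPolynomial.eval c Δ ≠ 0 →
        push (member_subset c) '' Eff1 (member c) ≠ Eff1 Y ∧ ¬ InducesIso (member_subset c)) ∧
    ∀ P : ℕ → MvPolynomial (Fin (d + 1) × Mon d) ℂ, (∀ n, P n ≠ 0) →
      ∃ c : Fin (d + 1) × Mon d → ℂ, (∀ n, MvPolynomial.eval c (P n) ≠ 0) ∧
        ¬ InducesIso (member_subset c) := by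
  have h1 : ∀ c : Fin (d + 1) × Mon d → ℂ, MvPolynomial.eval c (Del d hd) ≠ 0 →
      push (member_subset c) '' Eff1 (member c) ≠ Eff1 Y := fun c hc =>
    image_ne c (no_common_zero d hd c hc)
  refine ⟨⟨Del d hd, Del_ne d hd, fun c hc => ⟨h1 c hc, fun h => h1 c hc h.2⟩⟩, ?_⟩
  intro P hP
  obtain ⟨c, hc⟩ := exists_common_nonzero (fun n => Del d hd * P n)
    (fun n => mul_ne_zero (Del_ne d hd) (hP n))
  refine ⟨c, fun n h => hc n ?_, fun h => ?_⟩
  · rw [map_mul, h, mul_zero]
  · refine h1 c (fun h0 => hc 0 ?_) h.2
    rw [map_mul, h0, zero_mul]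

end Pool.Agent.Results.MP_f4858a_ag.GeneralP1P3
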